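import Pool.Agent.Helper40.JZ.Stmts

/-! LMF: properties of the means of stationary positive definite kernels (MP_7a8f48_an). -/

open Finset Filter MeasureTheory Topology
open scoped ComplexConjugate InnerProductSpace

namespace Pool.Agent.Helper40.JZ

open Pool.Agent.Helper40.DZ (SK)

/-- the restriction to the multiples of `m` -/
theorem lmf_mul {N : ℕ → ℕ → ℝ} (h : SK N) (m : ℕ) : SK fun k k' => N (m * k) (m * k') := by
  obtain ⟨⟨V, i1, i2, i3, w, hw⟩, hs⟩ := h
  refine ⟨⟨V, i1, i2, i3, fun k => w (m * k), fun k k' => hw _ _⟩, fun k k' => ?_⟩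
  have h1 : ∀ n a b : ℕ, N (a + n) (b + n) = N a b := by
    intro n
    induction n with
    | zero => intro a b; rfl
    | succ n ih => intro a b; rw [← add_assoc, ← add_assoc, hs, ih]
  show N (m * (k + 1)) (m * (k' + 1)) = N (m * k) (m * k')
  rw [mul_add, mul_add, mul_one, h1]

theorem st_LMF (hK : Pool.Agent.Helper40.DZ.ST_KER) : ST_LMF := by
  intro N hN
  have lim : ∀ N : ℕ → ℕ → ℝ, SK N → ∀ m : ℕ, 1 ≤ m → Tendsto (fun H : ℕ =>
      (∑ h ∈ range H, ∑ h' ∈ range H, N (m * h) (m * h')) / (H : ℝ) ^ 2) atTop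
      (𝓝 (LM N m)) := by
    intro N hN m hm
    obtain ⟨⟨L, h1, _⟩, _⟩ := hK N hN
    exact tendsto_nhds_limUnder ⟨L m, h1 m hm⟩
  have one : ∀ (N : ℕ → ℕ → ℝ) (m : ℕ), LM (fun k k' => N (m * k) (m * k')) 1 = LM N m := by
    intro N m
    unfold LM
    simp only [one_mul]
  have mul : ∀ (N : ℕ → ℕ → ℝ) (m n : ℕ),
      LM (fun k k' => N (m * k) (m * k')) n = LM N (m * n) := by
    intro N m n
    unfold LM
    simp only [mul_assoc]
  refine ⟨lim N hN, ?_, ?_, ?_, ?_⟩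
  · intro m n hm hn
    obtain ⟨⟨L, h1, h2, _⟩, _⟩ := hK _ (lmf_mul hN m)
    have e1 : L 1 = LM N m := by
      rw [← one N m]
      exact tendsto_nhds_unique (h1 1 le_rfl) (lim _ (lmf_mul hN m) 1 le_rfl)
    have e2 : L n = LM N (m * n) := by
      rw [← mul N m n]
      exact tendsto_nhds_unique (h1 n hn) (lim _ (lmf_mul hN m) n hn)
    rw [← e1, ← e2]
    exact h2 n hn
  · intro Q hQ hQ'
    obtain ⟨⟨L, h1, _, h3, _⟩, _⟩ := hK N hN
    have e : ∀ q : ℕ, 1 ≤ q → LM N q = L q := fun q hq =>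
      tendsto_nhds_unique (lim N hN q hq) (h1 q hq)
    have h4 : ∑ q ∈ Q, (LM N q - LM N 1) = ∑ q ∈ Q, (L q - L 1) :=
      sum_congr rfl fun q hq => by rw [e q (by have := hQ q hq; omega), e 1 le_rfl]
    rw [h4]
    exact h3 Q hQ hQ'
  · intro K hK'
    obtain ⟨⟨L, h1, _, _, h4⟩, _⟩ := hK N hN
    rw [tendsto_nhds_unique (lim N hN 1 le_rfl) (h1 1 le_rfl)]
    exact h4 K hK'
  · intro N' hN' hle m hm
    refine le_of_tendsto_of_tendsto' (lim N hN m hm) (lim N' hN' m hm) fun H => ?_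
    refine div_le_div_of_nonneg_right ?_ (by positivity)
    exact sum_le_sum fun h _ => sum_le_sum fun h' _ => hle _ _

end Pool.Agent.Helper40.JZ
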