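import Pool.Agent.Helper96.JZ.MSF

/-! NTF: elementary properties of the masses (MP_7a8f48_an). -/

open Finset Filter MeasureTheory Topology
open scoped ComplexConjugate InnerProductSpace

namespace Pool.Agent.Helper96.JZ

open Pool.Agent.Helper16.AZ (T mm)
open Pool.Agent.Helper40.JZ

/-! ### an abstract contraction -/

section abstract

variable {α : Type*} [MeasurableSpace α] {μ : Measure α} [IsProbabilityMeasure μ]

/-- the variance -/
theorem var_eq {h : α → ℂ} (hh : MemLp h 2 μ) :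
    ∫ x, ‖h x - ∫ y, h y ∂μ‖ ^ 2 ∂μ = ∫ x, ‖h x‖ ^ 2 ∂μ - ‖∫ y, h y ∂μ‖ ^ 2 := by
  set c : ℂ := ∫ y, h y ∂μ with hc
  have hi : Integrable h μ := hh.integrable (by norm_num)
  have h2 : Integrable (fun x => ‖h x‖ ^ 2) μ := hh.integrable_norm_pow (by norm_num)
  have h3 : Integrable (fun x => h x * conj c) μ := hi.mul_const _
  have h4 : ∫ x, (h x * conj c).re ∂μ = ‖c‖ ^ 2 := by
    have h5 := Complex.reCLM.integral_comp_comm h3
    simp only [Complex.reCLM_apply] at h5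
    rw [h5, integral_mul_const, ← hc, Complex.mul_conj, Complex.ofReal_re, Complex.sq_norm]
  have h5 : Integrable (fun x => (h x * conj c).re) μ := h3.re
  have h6 : ∀ x, ‖h x - c‖ ^ 2 = (‖h x‖ ^ 2 + ‖c‖ ^ 2) - 2 * (h x * conj c).re := by
    intro x
    rw [Complex.sq_norm, Complex.sq_norm, Complex.sq_norm, Complex.normSq_sub]
  have h7 : ∫ x, ‖h x - c‖ ^ 2 ∂μ =
      ∫ x, ((‖h x‖ ^ 2 + ‖c‖ ^ 2) - 2 * (h x * conj c).re) ∂μ :=
    integral_congr_ae (Eventually.of_forall h6)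
  have i1 : Integrable (fun x => ‖h x‖ ^ 2 + ‖c‖ ^ 2) μ := h2.add (integrable_const _)
  have i2 : Integrable (fun x => 2 * (h x * conj c).re) μ := h5.const_mul 2
  rw [h7, integral_sub i1 i2, integral_add h2 (integrable_const _), integral_const_mul, h4,
    integral_const]
  simp
  ring

theorem norm_integral_sq_le {h : α → ℂ} (hh : MemLp h 2 μ) :
    ‖∫ y, h y ∂μ‖ ^ 2 ≤ ∫ x, ‖h x‖ ^ 2 ∂μ := by
  have h1 := var_eq hh
  have h2 : 0 ≤ ∫ x, ‖h x - ∫ y, h y ∂μ‖ ^ 2 ∂μ := integral_nonneg fun x => by positivity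
  linarith

/-- Minkowski's inequality for sequences -/
theorem mink_tsum {ι : Type*} {b c d : ι → ℝ} (hb : ∀ i, 0 ≤ b i) (hc : ∀ i, 0 ≤ c i)
    (hd : ∀ i, 0 ≤ d i) (hbcd : ∀ i, b i ≤ c i + d i) (hsc : Summable fun i => c i ^ 2)
    (hsd : Summable fun i => d i ^ 2) :
    Real.sqrt (∑' i, b i ^ 2) ≤ Real.sqrt (∑' i, c i ^ 2) + Real.sqrt (∑' i, d i ^ 2) := by
  have h := Real.Lp_add_le_tsum_of_nonneg (p := 2) (by norm_num) hc hd
    (by simpa only [Real.rpow_two] using hsc) (by simpa only [Real.rpow_two] using hsd)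
  simp only [Real.rpow_two, ← Real.sqrt_eq_rpow] at h
  refine le_trans (Real.sqrt_le_sqrt ?_) h.2
  have hle : ∀ i, b i ^ 2 ≤ (c i + d i) ^ 2 := fun i => pow_le_pow_left₀ (hb i) (hbcd i) 2
  exact (Summable.of_nonneg_of_le (fun i => by positivity) hle h.1).tsum_le_tsum hle h.1

/-- the square norm of a family minus the square of one integral is the square norm of a
contraction -/
theorem abs_contr {ι : Type*} [DecidableEq ι] (i₀ : ι) {v v' v'' : ι → α → ℂ}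
    (hv : ∀ i, MemLp (v i) 2 μ) (hv' : ∀ i, MemLp (v' i) 2 μ) (hv'' : ∀ i, MemLp (v'' i) 2 μ)
    (hs : Summable fun i => ∫ x, ‖v i x‖ ^ 2 ∂μ) (hs' : Summable fun i => ∫ x, ‖v' i x‖ ^ 2 ∂μ)
    (hs'' : Summable fun i => ∫ x, ‖v'' i x‖ ^ 2 ∂μ)
    (he : ∀ i, ∀ᵐ x ∂μ, v'' i x = v i x - v' i x) :
    Real.sqrt (∑' i, ∫ x, ‖v i x‖ ^ 2 ∂μ - ‖∫ x, v i₀ x ∂μ‖ ^ 2) ≤
      Real.sqrt (∑' i, ∫ x, ‖v' i x‖ ^ 2 ∂μ - ‖∫ x, v' i₀ x ∂μ‖ ^ 2) +
      Real.sqrt (∑' i, ∫ x, ‖v'' i x‖ ^ 2 ∂μ) := by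
  have key : ∀ w : ι → α → ℂ, (∀ i, MemLp (w i) 2 μ) →
      ∀ i, ∫ x, ‖w i x - (if i = i₀ then ∫ y, w i₀ y ∂μ else 0)‖ ^ 2 ∂μ =
        ∫ x, ‖w i x‖ ^ 2 ∂μ - (if i = i₀ then ‖∫ y, w i₀ y ∂μ‖ ^ 2 else 0) := by
    intro w hw i
    by_cases hi : i = i₀
    · subst hi
      simp only [if_true]
      exact var_eq (hw i)
    · simp only [if_neg hi, sub_zero]
  have hsum : ∀ w : ι → α → ℂ, (∀ i, MemLp (w i) 2 μ) →
      (Summable fun i => ∫ x, ‖w i x‖ ^ 2 ∂μ) →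
      (Summable fun i => ∫ x, ‖w i x - (if i = i₀ then ∫ y, w i₀ y ∂μ else 0)‖ ^ 2 ∂μ) ∧
      ∑' i, ∫ x, ‖w i x - (if i = i₀ then ∫ y, w i₀ y ∂μ else 0)‖ ^ 2 ∂μ =
        ∑' i, ∫ x, ‖w i x‖ ^ 2 ∂μ - ‖∫ x, w i₀ x ∂μ‖ ^ 2 := by
    intro w hw hsw
    have h1 : HasSum (fun i => if i = i₀ then ‖∫ y, w i₀ y ∂μ‖ ^ 2 else 0)
        (‖∫ y, w i₀ y ∂μ‖ ^ 2) := hasSum_ite_eq i₀ _
    have h2 := hsw.hasSum.sub h1
    have h3 : (fun i => ∫ x, ‖w i x - (if i = i₀ then ∫ y, w i₀ y ∂μ else 0)‖ ^ 2 ∂μ) =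
        fun i => ∫ x, ‖w i x‖ ^ 2 ∂μ - (if i = i₀ then ‖∫ y, w i₀ y ∂μ‖ ^ 2 else 0) :=
      funext (key w hw)
    rw [h3]
    exact ⟨h2.summable, h2.tsum_eq⟩
  obtain ⟨s1, e1⟩ := hsum v hv hs
  obtain ⟨s2, e2⟩ := hsum v' hv' hs'
  rw [← e1, ← e2]
  have hsq : ∀ y : ℝ, 0 ≤ y → Real.sqrt y ^ 2 = y := fun y hy => Real.sq_sqrt hy
  have hnn : ∀ w : α → ℂ, 0 ≤ ∫ x, ‖w x‖ ^ 2 ∂μ := fun w => integral_nonneg fun x => by positivity
  have h := mink_tsum
    (b := fun i => Real.sqrt (∫ x, ‖v i x - (if i = i₀ then ∫ y, v i₀ y ∂μ else 0)‖ ^ 2 ∂μ))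
    (c := fun i => Real.sqrt (∫ x, ‖v' i x - (if i = i₀ then ∫ y, v' i₀ y ∂μ else 0)‖ ^ 2 ∂μ))
    (d := fun i => Real.sqrt (∫ x, ‖v'' i x‖ ^ 2 ∂μ))
    (fun i => Real.sqrt_nonneg _) (fun i => Real.sqrt_nonneg _) (fun i => Real.sqrt_nonneg _)
    ?_ ?_ ?_
  · simp only [hsq _ (hnn _)] at h
    exact h
  · intro i
    have m1 : MemLp (fun x => v' i x - (if i = i₀ then ∫ y, v' i₀ y ∂μ else 0)) 2 μ :=
      (hv' i).sub (memLp_const _)
    have m2 : MemLp (fun x => v'' i x - (if i = i₀ then ∫ y, v'' i₀ y ∂μ else 0)) 2 μ :=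
      (hv'' i).sub (memLp_const _)
    have h1 := minkowski m1 m2
    have hint : ∫ y, v'' i₀ y ∂μ = ∫ y, v i₀ y ∂μ - ∫ y, v' i₀ y ∂μ := by
      rw [← integral_sub ((hv i₀).integrable (by norm_num)) ((hv' i₀).integrable (by norm_num))]
      exact integral_congr_ae (he i₀)
    have h2 : ∫ x, ‖v i x - (if i = i₀ then ∫ y, v i₀ y ∂μ else 0)‖ ^ 2 ∂μ =
        ∫ x, ‖(v' i x - (if i = i₀ then ∫ y, v' i₀ y ∂μ else 0)) +
          (v'' i x - (if i = i₀ then ∫ y, v'' i₀ y ∂μ else 0))‖ ^ 2 ∂μ := by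
      apply integral_congr_ae
      filter_upwards [he i] with x hx
      rw [hx]
      by_cases hi : i = i₀
      · simp only [if_pos hi]
        rw [hint]
        congr 2
        ring
      · simp only [if_neg hi]
        congr 2
        ring
    show Real.sqrt (∫ x, ‖v i x - (if i = i₀ then ∫ y, v i₀ y ∂μ else 0)‖ ^ 2 ∂μ) ≤
      Real.sqrt (∫ x, ‖v' i x - (if i = i₀ then ∫ y, v' i₀ y ∂μ else 0)‖ ^ 2 ∂μ) +
      Real.sqrt (∫ x, ‖v'' i x‖ ^ 2 ∂μ)
    rw [h2]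
    refine h1.trans (add_le_add le_rfl (Real.sqrt_le_sqrt ?_))
    rw [key v'' hv'' i]
    have : 0 ≤ (if i = i₀ then ‖∫ y, v'' i₀ y ∂μ‖ ^ 2 else 0) := by
      split_ifs <;> positivity
    linarith
  · simp only [hsq _ (hnn _)]
    exact s2
  · simp only [hsq _ (hnn _)]
    exact hs''

end abstract

variable {r : ℕ}

/-! ### the averages -/

theorem pj_congr {q : ℕ} {D : T r → T r → U} {j : ℤ} {g g' : T r → ℂ}
    (h : ∀ᵐ x ∂(mm r), g x = g' x) :
    ∀ᵐ x ∂(mm r), pj q D j g x = pj q D j g' x := by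
  have h1 : ∀ᵐ x ∂(mm r), ∀ s ∈ tor r q, g (x + s) = g' (x + s) := by
    rw [Filter.eventually_all_finset]
    intro s _
    exact (measurePreserving_add_right (mm r) s).quasiMeasurePreserving.ae h
  filter_upwards [h1] with x hx
  rw [pj, pj]
  congr 1
  exact sum_congr rfl fun s hs => by rw [hx s hs]

theorem ms_congr {q : ℕ} {D : T r → T r → U} {j : ℤ} {g g' : T r → ℂ}
    (h : ∀ᵐ x ∂(mm r), g x = g' x) : ms q D j g = ms q D j g' := by
  unfold ms
  apply integral_congr_ae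
  filter_upwards [pj_congr (q := q) (D := D) (j := j) h] with x hx
  rw [hx]

theorem integral_pj {q : ℕ} (hq : 1 ≤ q) (hc : (tor r q).card = q ^ r) (D : T r → T r → U)
    {g : T r → ℂ} (hg : Integrable g (mm r)) :
    ∫ x, pj q D 0 g x ∂(mm r) = ∫ x, g x ∂(mm r) := by
  have hq0 : (q : ℂ) ^ r ≠ 0 := by
    have : (q : ℂ) ≠ 0 := by exact_mod_cast (by omega : q ≠ 0)
    exact pow_ne_zero _ this
  have h1 : ∀ x, pj q D 0 g x = (∑ s ∈ tor r q, g (x + s)) / (q : ℂ) ^ r := by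
    intro x
    rw [pj]
    congr 1
    exact sum_congr rfl fun s _ => by rw [fourier_zero, one_mul]
  have hi : ∀ s ∈ tor r q, Integrable (fun x => g (x + s)) (mm r) := fun s _ =>
    hg.comp_add_right s
  rw [integral_congr_ae (Eventually.of_forall h1), integral_div, integral_finsetSum _ hi]
  have h2 : ∀ s ∈ tor r q, ∫ x, g (x + s) ∂(mm r) = ∫ x, g x ∂(mm r) := fun s _ =>
    integral_add_right_eq_self g s
  rw [sum_congr rfl h2, sum_const, hc, nsmul_eq_mul]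
  push_cast
  field_simp

/-! ### the coefficients -/

theorem fib_sub (hF : ST_FIB) {G G' : T (r + 1) → ℂ} (hG : MemLp G 2 (mm (r + 1)))
    (hG' : MemLp G' 2 (mm (r + 1))) (a : ℤ) :
    ∀ᵐ x ∂(mm r), fib (fun y => G y - G' y) a x = fib G a x - fib G' a x := by
  have hmp := (hF r).1
  have hint : ∀ H : T (r + 1) → ℂ, MemLp H 2 (mm (r + 1)) → ∀ᵐ x ∂(mm r),
      Integrable (fun k => (fourier (-a) k : ℂ) * H (sn x k))
        (AddCircle.haarAddCircle : Measure U) := by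
    intro H hH
    have h1 : MemLp (fun z : T r × U => H (sn z.1 z.2)) 2
        ((mm r).prod (AddCircle.haarAddCircle : Measure U)) := hH.comp_measurePreserving hmp
    have h2 : MemLp (fun z : T r × U => (fourier (-a) z.2 : ℂ) * H (sn z.1 z.2)) 2
        ((mm r).prod (AddCircle.haarAddCircle : Measure U)) := by
      refine h1.of_le ?_ (Eventually.of_forall fun z => ?_)
      · refine AEStronglyMeasurable.mul ?_ h1.aestronglyMeasurable
        exact ((fourier (-a)).continuous.comp continuous_snd).aestronglyMeasurable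
      · rw [norm_mul, norm_four, one_mul]
    have h3 : Integrable (fun z : T r × U => (fourier (-a) z.2 : ℂ) * H (sn z.1 z.2))
        ((mm r).prod (AddCircle.haarAddCircle : Measure U)) := h2.integrable (by norm_num)
    exact h3.prod_right_ae
  filter_upwards [hint G hG, hint G' hG'] with x h1 h2
  unfold fib
  rw [← integral_sub h1 h2]
  apply integral_congr_ae
  refine Eventually.of_forall fun k => ?_
  show (fourier (-a) k : ℂ) * (G (sn x k) - G' (sn x k)) =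
    fourier (-a) k * G (sn x k) - fourier (-a) k * G' (sn x k)
  ring

/-- the components of a function for a type -/
noncomputable def vv {r : ℕ} (q : ℕ) : TY r → (T (r + 1) → ℂ) → ℤ → T r → ℂ
  | none, G, j => if j = 0 then pj q (fun _ _ => 0) 0 (fib G 0) else fun _ => 0
  | some t, G, j => pj q t.2 j (fib G (j * t.1))

theorem vv_none {r : ℕ} (q : ℕ) (G : T (r + 1) → ℂ) (j : ℤ) :
    vv q none G j = if j = 0 then pj q (fun _ _ => 0) 0 (fib G 0) else fun _ => 0 := rfl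

theorem vv_some {r : ℕ} (q : ℕ) (t : ℤ × (T r → T r → U)) (G : T (r + 1) → ℂ) (j : ℤ) :
    vv q (some t) G j = pj q t.2 j (fib G (j * t.1)) := rfl

variable {q : ℕ} {θ : T r} {f : T r → U} {t : TY r}

theorem memLp_vv (hF : ST_FIB) (hO : OK θ f q t) {G : T (r + 1) → ℂ}
    (hG : MemLp G 2 (mm (r + 1))) (j : ℤ) : MemLp (vv q t G j) 2 (mm r) := by
  have hf := ((hF r).2 G hG).1
  rcases t with _ | t
  · rw [vv_none]
    split_ifs
    · exact memLp_pj 0 (fun s _ => measurable_const) (hf 0)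
    · exact MemLp.zero'
  · exact memLp_pj j hO.2.1 (hf _)

theorem vv_sub (hF : ST_FIB) {G G' : T (r + 1) → ℂ} (hG : MemLp G 2 (mm (r + 1)))
    (hG' : MemLp G' 2 (mm (r + 1))) (j : ℤ) :
    ∀ᵐ x ∂(mm r), vv q t (fun y => G y - G' y) j x = vv q t G j x - vv q t G' j x := by
  rcases t with _ | t
  · rw [vv_none, vv_none, vv_none]
    split_ifs
    · filter_upwards [pj_congr (q := q) (D := fun _ _ => 0) (j := 0) (fib_sub hF hG hG' 0)]
        with x hx
      rw [hx, pj_sub]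
    · exact Eventually.of_forall fun x => by simp
  · rw [vv_some, vv_some, vv_some]
    filter_upwards [pj_congr (q := q) (D := t.2) (j := j) (fib_sub hF hG hG' (j * t.1))]
      with x hx
    rw [hx, pj_sub]

theorem integral_vv (hF : ST_FIB) (hq : 1 ≤ q) (hc : (tor r q).card = q ^ r)
    {G : T (r + 1) → ℂ} (hG : MemLp G 2 (mm (r + 1))) :
    ∫ x, vv q t G 0 x ∂(mm r) = ∫ y, G y ∂(mm (r + 1)) := by
  obtain ⟨hf, _, h0, _⟩ := (hF r).2 G hG
  have hi : Integrable (fib G 0) (mm r) := (hf 0).integrable (by norm_num)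
  rw [h0]
  rcases t with _ | t
  · rw [vv_none, if_pos rfl]
    exact integral_pj hq hc _ hi
  · rw [vv_some, zero_mul]
    exact integral_pj hq hc _ hi

/-- the sum of the square norms -/
theorem sum_vv (hF : ST_FIB) (hq : 1 ≤ q) (hc : (tor r q).card = q ^ r) (hO : OK θ f q t)
    {G : T (r + 1) → ℂ} (hG : MemLp G 2 (mm (r + 1))) :
    (Summable fun j : ℤ => ∫ x, ‖vv q t G j x‖ ^ 2 ∂(mm r)) ∧
    NT q t G = ∑' j : ℤ, ∫ x, ‖vv q t G j x‖ ^ 2 ∂(mm r) ∧
    NT q t G ≤ ∫ y, ‖G y‖ ^ 2 ∂(mm (r + 1)) := by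
  obtain ⟨hf, hs, _, _⟩ := (hF r).2 G hG
  rcases t with _ | t
  · have h1 : (fun j : ℤ => ∫ x, ‖vv q none G j x‖ ^ 2 ∂(mm r)) =
        fun j : ℤ => if j = 0 then ms q (fun _ _ => 0) 0 (fib G 0) else 0 := by
      funext j
      rw [vv_none]
      split_ifs
      · rfl
      · simp
    rw [h1]
    have h2 : HasSum (fun j : ℤ => if j = 0 then ms q (fun _ _ => 0) 0 (fib G 0) else 0)
        (ms q (fun _ _ => 0) 0 (fib G 0)) := hasSum_ite_eq 0 _
    refine ⟨h2.summable, h2.tsum_eq.symm, ?_⟩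
    show ms q (fun _ _ => 0) 0 (fib G 0) ≤ _
    refine (ms_le hq hc 0 (fun s _ => measurable_const) (hf 0)).trans ?_
    exact le_hasSum hs 0 fun a _ => integral_nonneg fun x => by positivity
  · obtain ⟨ha, hL⟩ := hO
    have hinj : Function.Injective fun j : ℤ => j * t.1 := fun i j hij => mul_right_cancel₀ ha hij
    have hsj : Summable fun j : ℤ => ∫ x, ‖fib G (j * t.1) x‖ ^ 2 ∂(mm r) :=
      hs.summable.comp_injective hinj
    have hle : ∀ j : ℤ, ms q t.2 j (fib G (j * t.1)) ≤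
        ∫ x, ‖fib G (j * t.1) x‖ ^ 2 ∂(mm r) := fun j => ms_le hq hc j hL.1 (hf _)
    have hsm : Summable fun j : ℤ => ms q t.2 j (fib G (j * t.1)) :=
      Summable.of_nonneg_of_le (fun j => ms_nonneg _ _ _ _) hle hsj
    refine ⟨hsm, rfl, ?_⟩
    show ∑' j : ℤ, ms q t.2 j (fib G (j * t.1)) ≤ _
    refine (hsm.tsum_le_tsum hle hsj).trans ?_
    rw [← hs.tsum_eq]
    exact tsum_comp_le_tsum_of_inj hs.summable
      (fun a => integral_nonneg fun x => by positivity) hinj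

theorem NT_inv (hF : ST_FIB) (hO : OK θ f q t) (hfm : Measurable f) {G : T (r + 1) → ℂ}
    (hG : MemLp G 2 (mm (r + 1))) : NT q t (fun y => G (SA θ f y)) = NT q t G := by
  obtain ⟨_, _, _, h⟩ := (hF r).2 G hG
  have h1 := h θ f hfm
  rcases t with _ | t
  · show ms q (fun _ _ => 0) 0 (fib (fun y => G (SA θ f y)) 0) = ms q (fun _ _ => 0) 0 (fib G 0)
    rw [ms_congr (h1 0)]
    have hL : Lift θ f q 0 (fun _ _ => 0) :=
      ⟨fun s _ => measurable_const, fun s _ s' _ => Eventually.of_forall fun x => by simp,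
        fun s _ => Eventually.of_forall fun x => by simp⟩
    exact ms_inv (j := 0) (a := 0) (g := fib G 0) hL
  · show ∑' j : ℤ, ms q t.2 j (fib (fun y => G (SA θ f y)) (j * t.1)) =
      ∑' j : ℤ, ms q t.2 j (fib G (j * t.1))
    refine tsum_congr fun j => ?_
    rw [ms_congr (h1 (j * t.1))]
    exact ms_inv hO.2

end Pool.Agent.Helper96.JZ

namespace Pool.Agent.Helper40.JZ

open Pool.Agent.Helper16.AZ (T mm)
open Pool.Agent.Helper96.JZ

theorem st_NTF (tr : ST_TOR) (_ : ST_MSF) (hF : ST_FIB) : ST_NTF := by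
  intro r θ f q t G G' hq hfm hO hG hG'
  have hc : (tor r q).card = q ^ r := (tr r q hq).2.1
  obtain ⟨s1, e1, l1⟩ := sum_vv hF hq hc hO hG
  obtain ⟨s2, e2, _⟩ := sum_vv hF hq hc hO hG'
  obtain ⟨s3, e3, l3⟩ := sum_vv hF hq hc hO (hG.sub hG')
  have i1 : ∫ x, vv q t G 0 x ∂(mm r) = ∫ y, G y ∂(mm (r + 1)) := integral_vv hF hq hc hG
  have i2 : ∫ x, vv q t G' 0 x ∂(mm r) = ∫ y, G' y ∂(mm (r + 1)) := integral_vv hF hq hc hG'
  refine ⟨?_, l1, ?_, NT_inv hF hO hfm hG, ?_⟩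
  · rw [e1, ← i1]
    refine (norm_integral_sq_le (memLp_vv hF hO hG 0)).trans ?_
    exact s1.le_tsum 0 fun j _ => integral_nonneg fun x => by positivity
  · rintro s rfl
    exact s1
  · have h := abs_contr (μ := mm r) (0 : ℤ) (memLp_vv hF hO hG) (memLp_vv hF hO hG')
      (memLp_vv hF hO (hG.sub hG')) s1 s2 s3 (fun j => vv_sub hF hG hG' j)
    rw [← e1, ← e2, ← e3, i1, i2] at h
    exact h.trans (add_le_add le_rfl (Real.sqrt_le_sqrt l3))

end Pool.Agent.Helper40.JZ
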