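import Pool.Agent.Helper40.JZ.Stmts

/-! MSF: elementary properties of the square norms `ms` (MP_7a8f48_an). -/

open Finset Filter MeasureTheory Topology
open scoped ComplexConjugate InnerProductSpace

namespace Pool.Agent.Helper96.JZ

open Pool.Agent.Helper16.AZ (T mm)
open Pool.Agent.Helper40.JZ

theorem norm_four (n : ℤ) (x : U) : ‖(fourier n x : ℂ)‖ = 1 := by
  rw [fourier_apply]
  exact Circle.norm_coe _

theorem four_add (n : ℤ) (x y : U) :
    (fourier n (x + y) : ℂ) = fourier n x * fourier n y := by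
  rw [fourier_apply, fourier_apply, fourier_apply, ← Circle.coe_mul, ← AddCircle.toCircle_add,
    smul_add]

theorem four_mul (j a : ℤ) (x : U) : (fourier (j * a) x : ℂ) = fourier j (a • x) := by
  rw [fourier_apply, fourier_apply, mul_smul]

section minkowski

variable {α : Type*} [MeasurableSpace α] {μ : Measure α}

theorem toLp_sq {f : α → ℂ} (hf : MemLp f 2 μ) :
    ‖hf.toLp f‖ ^ 2 = ∫ x, ‖f x‖ ^ 2 ∂μ := by
  have h1 : ((‖hf.toLp f‖ ^ 2 : ℝ) : ℂ) = ((∫ x, ‖f x‖ ^ 2 ∂μ : ℝ) : ℂ) := by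
    have h2 : (inner ℂ (hf.toLp f) (hf.toLp f) : ℂ) = ((‖hf.toLp f‖ ^ 2 : ℝ) : ℂ) := by
      rw [inner_self_eq_norm_sq_to_K]
      push_cast
      rfl
    rw [← h2, L2.inner_def, ← integral_complex_ofReal]
    apply integral_congr_ae
    filter_upwards [hf.coeFn_toLp] with x hx
    rw [hx, inner_self_eq_norm_sq_to_K]
    push_cast
    rfl
  exact_mod_cast h1

theorem minkowski {f g : α → ℂ} (hf : MemLp f 2 μ) (hg : MemLp g 2 μ) :
    Real.sqrt (∫ x, ‖f x + g x‖ ^ 2 ∂μ) ≤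
      Real.sqrt (∫ x, ‖f x‖ ^ 2 ∂μ) + Real.sqrt (∫ x, ‖g x‖ ^ 2 ∂μ) := by
  have h := toLp_sq (hf.add hg)
  have h2 : ∫ x, ‖f x + g x‖ ^ 2 ∂μ = ‖(hf.add hg).toLp (f + g)‖ ^ 2 := h.symm
  rw [h2, ← toLp_sq hf, ← toLp_sq hg, Real.sqrt_sq (norm_nonneg _), Real.sqrt_sq (norm_nonneg _),
    Real.sqrt_sq (norm_nonneg _), MemLp.toLp_add]
  exact norm_add_le _ _

end minkowski

variable {r : ℕ}

/-- the summands are in `L²` -/
theorem memLp_term {q : ℕ} {D : T r → T r → U} (j : ℤ) {g : T r → ℂ}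
    (hD : ∀ s ∈ tor r q, Measurable (D s)) (hg : MemLp g 2 (mm r)) {s : T r}
    (hs : s ∈ tor r q) : MemLp (fun x => fourier j (D s x) * g (x + s)) 2 (mm r) := by
  have h1 : MemLp (fun x => g (x + s)) 2 (mm r) :=
    hg.comp_measurePreserving (measurePreserving_add_right (mm r) s)
  refine h1.of_le ?_ (Eventually.of_forall fun x => ?_)
  · refine AEStronglyMeasurable.mul ?_ h1.aestronglyMeasurable
    exact ((fourier j).continuous.measurable.comp (hD s hs)).aestronglyMeasurable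
  · rw [norm_mul, norm_four, one_mul]

theorem memLp_pj {q : ℕ} {D : T r → T r → U} (j : ℤ) {g : T r → ℂ}
    (hD : ∀ s ∈ tor r q, Measurable (D s)) (hg : MemLp g 2 (mm r)) :
    MemLp (pj q D j g) 2 (mm r) := by
  have h1 : MemLp (fun x => ∑ s ∈ tor r q, fourier j (D s x) * g (x + s)) 2 (mm r) :=
    memLp_finsetSum _ fun s hs => memLp_term j hD hg hs
  have h2 := h1.mul_const (((q : ℂ) ^ r)⁻¹)
  have h3 : pj q D j g = fun x => (∑ s ∈ tor r q, fourier j (D s x) * g (x + s)) *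
      ((q : ℂ) ^ r)⁻¹ := by
    funext x
    rw [pj, div_eq_mul_inv]
  rw [h3]
  exact h2

theorem ms_nonneg (q : ℕ) (D : T r → T r → U) (j : ℤ) (g : T r → ℂ) : 0 ≤ ms q D j g :=
  integral_nonneg fun x => by positivity

/-- Cauchy-Schwarz for the average -/
theorem pj_sq_le {q : ℕ} (hq : 1 ≤ q) (hc : (tor r q).card = q ^ r) (D : T r → T r → U) (j : ℤ)
    (g : T r → ℂ) (x : T r) :
    ‖pj q D j g x‖ ^ 2 ≤ (∑ s ∈ tor r q, ‖fourier j (D s x) * g (x + s)‖ ^ 2) / (q : ℝ) ^ r := by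
  have hq0 : (0 : ℝ) < (q : ℝ) ^ r := by
    have : (0 : ℝ) < q := by exact_mod_cast hq
    positivity
  have h1 : ‖pj q D j g x‖ = ‖∑ s ∈ tor r q, fourier j (D s x) * g (x + s)‖ / (q : ℝ) ^ r := by
    rw [pj, norm_div, norm_pow, Complex.norm_natCast]
  have h2 : ‖∑ s ∈ tor r q, fourier j (D s x) * g (x + s)‖ ≤
      ∑ s ∈ tor r q, ‖fourier j (D s x) * g (x + s)‖ := norm_sum_le _ _
  have h3 : (∑ s ∈ tor r q, ‖fourier j (D s x) * g (x + s)‖) ^ 2 ≤
      (tor r q).card * ∑ s ∈ tor r q, ‖fourier j (D s x) * g (x + s)‖ ^ 2 :=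
    sq_sum_le_card_mul_sum_sq
  rw [hc] at h3
  push_cast at h3
  rw [h1, div_pow, div_le_div_iff₀ (by positivity) hq0]
  have h4 : ‖∑ s ∈ tor r q, fourier j (D s x) * g (x + s)‖ ^ 2 ≤
      (∑ s ∈ tor r q, ‖fourier j (D s x) * g (x + s)‖) ^ 2 :=
    pow_le_pow_left₀ (norm_nonneg _) h2 2
  nlinarith [mul_le_mul_of_nonneg_right (h4.trans h3) hq0.le]

theorem ms_le {q : ℕ} (hq : 1 ≤ q) (hc : (tor r q).card = q ^ r) {D : T r → T r → U} (j : ℤ)
    {g : T r → ℂ} (hD : ∀ s ∈ tor r q, Measurable (D s)) (hg : MemLp g 2 (mm r)) :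
    ms q D j g ≤ ∫ x, ‖g x‖ ^ 2 ∂(mm r) := by
  have hq0 : (0 : ℝ) < (q : ℝ) ^ r := by
    have : (0 : ℝ) < q := by exact_mod_cast hq
    positivity
  have hi : ∀ s ∈ tor r q, Integrable (fun x => ‖fourier j (D s x) * g (x + s)‖ ^ 2) (mm r) :=
    fun s hs => (memLp_term j hD hg hs).integrable_norm_pow (by norm_num)
  have h1 : ms q D j g ≤
      ∫ x, (∑ s ∈ tor r q, ‖fourier j (D s x) * g (x + s)‖ ^ 2) / (q : ℝ) ^ r ∂(mm r) := by
    refine integral_mono ((memLp_pj j hD hg).integrable_norm_pow (by norm_num))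
      ((integrable_finsetSum _ hi).div_const _) fun x => pj_sq_le hq hc D j g x
  refine h1.trans (le_of_eq ?_)
  rw [integral_div, integral_finsetSum _ hi]
  have h2 : ∀ s ∈ tor r q, ∫ x, ‖fourier j (D s x) * g (x + s)‖ ^ 2 ∂(mm r) =
      ∫ x, ‖g x‖ ^ 2 ∂(mm r) := by
    intro s _
    have h3 : ∫ x, ‖fourier j (D s x) * g (x + s)‖ ^ 2 ∂(mm r) =
        ∫ x, ‖g (x + s)‖ ^ 2 ∂(mm r) := by
      apply integral_congr_ae
      refine Eventually.of_forall fun x => ?_
      show ‖fourier j (D s x) * g (x + s)‖ ^ 2 = ‖g (x + s)‖ ^ 2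
      rw [norm_mul, norm_four, one_mul]
    rw [h3]
    exact integral_add_right_eq_self (fun x => ‖g x‖ ^ 2) s
  rw [sum_congr rfl h2, sum_const, hc, nsmul_eq_mul]
  push_cast
  field_simp

theorem pj_add (q : ℕ) (D : T r → T r → U) (j : ℤ) (g g' : T r → ℂ) (x : T r) :
    pj q D j (fun x => g x + g' x) x = pj q D j g x + pj q D j g' x := by
  rw [pj, pj, pj, ← add_div, ← sum_add_distrib]
  congr 1
  refine sum_congr rfl fun s _ => ?_
  ring

theorem pj_sub (q : ℕ) (D : T r → T r → U) (j : ℤ) (g g' : T r → ℂ) (x : T r) :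
    pj q D j (fun x => g x - g' x) x = pj q D j g x - pj q D j g' x := by
  rw [pj, pj, pj, ← sub_div, ← sum_sub_distrib]
  congr 1
  refine sum_congr rfl fun s _ => ?_
  ring

/-- the invariance -/
theorem ms_inv {q : ℕ} {D : T r → T r → U} {j : ℤ} {g : T r → ℂ} {θ : T r} {f : T r → U} {a : ℤ}
    (hL : Lift θ f q a D) :
    ms q D j (fun x => fourier (j * a) (f x) * g (x + θ)) = ms q D j g := by
  have h1 : ∀ᵐ x ∂(mm r), ∀ s ∈ tor r q, D s (x + θ) + a • f x = a • f (x + s) + D s x := by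
    rw [Filter.eventually_all_finset]
    exact hL.2.2
  have h2 : ∀ᵐ x ∂(mm r), ‖pj q D j (fun x => fourier (j * a) (f x) * g (x + θ)) x‖ ^ 2 =
      ‖pj q D j g (x + θ)‖ ^ 2 := by
    filter_upwards [h1] with x hx
    have h3 : pj q D j (fun x => fourier (j * a) (f x) * g (x + θ)) x =
        fourier (j * a) (f x) * pj q D j g (x + θ) := by
      rw [pj, pj, mul_div_assoc', mul_sum]
      congr 1
      refine sum_congr rfl fun s hs => ?_
      show fourier j (D s x) * (fourier (j * a) (f (x + s)) * g (x + s + θ)) =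
        fourier (j * a) (f x) * (fourier j (D s (x + θ)) * g (x + θ + s))
      have e1 : (fourier j (D s x) : ℂ) * fourier (j * a) (f (x + s)) =
          fourier (j * a) (f x) * fourier j (D s (x + θ)) := by
        rw [four_mul, four_mul, ← four_add, ← four_add, add_comm (a • f x), hx s hs,
          add_comm (D s x)]
      rw [← mul_assoc, ← mul_assoc, e1, add_right_comm x s θ]
    rw [h3, norm_mul, norm_four, one_mul]
  unfold ms
  rw [integral_congr_ae h2]
  exact integral_add_right_eq_self (fun x => ‖pj q D j g x‖ ^ 2) θ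

end Pool.Agent.Helper96.JZ

namespace Pool.Agent.Helper40.JZ

open Pool.Agent.Helper16.AZ (T mm)
open Pool.Agent.Helper96.JZ

theorem st_MSF (tr : ST_TOR) : ST_MSF := by
  intro r q D j g g' hq hD hg hg'
  have hc : (tor r q).card = q ^ r := (tr r q hq).2.1
  refine ⟨memLp_pj j hD hg, ms_nonneg q D j g, ms_le hq hc j hD hg, ?_, ?_⟩
  · have h1 : ms q D j (fun x => g x + g' x) =
        ∫ x, ‖pj q D j g x + pj q D j g' x‖ ^ 2 ∂(mm r) := by
      unfold ms
      apply integral_congr_ae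
      refine Eventually.of_forall fun x => ?_
      show ‖pj q D j (fun x => g x + g' x) x‖ ^ 2 = ‖pj q D j g x + pj q D j g' x‖ ^ 2
      rw [pj_add]
    rw [h1]
    exact minkowski (memLp_pj j hD hg) (memLp_pj j hD hg')
  · intro θ f a _ hL
    exact ms_inv hL

end Pool.Agent.Helper40.JZ
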