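import Pool.Agent.Helper96.JZ.MSF
import Pool.Agent.Helper60.JZ.ERG

/-! QBZ: the masses of the base for `q → ∞` (MP_7a8f48_an). -/

open Finset Filter MeasureTheory Topology
open scoped ComplexConjugate InnerProductSpace

namespace Pool.Agent.Helper40.JZ

open Pool.Agent.Helper16.AZ (T mm fc)
open Pool.Agent.Helper40.DZ (fpr_one fpr_trans fpr_mf_add)
open Pool.Agent.Helper96.JZ
open UnitAddTorus (mFourier)

theorem qbz_norm {r : ℕ} (X : Fin r → ℤ) (s : T r) : ‖(mFourier X s : ℂ)‖ = 1 := by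
  rw [erg_mf]
  exact Circle.norm_coe _

/-- orthogonality -/
theorem qbz_zero (tr : ST_TOR) {r q : ℕ} (hq : 1 ≤ q) {X : Fin r → ℤ} {i : Fin r}
    (h0 : X i ≠ 0) (hX : (X i).natAbs < q) : ∑ s ∈ tor r q, (mFourier X s : ℂ) = 0 := by
  obtain ⟨hm, _, ht, _⟩ := tr r q hq
  have hq0 : (q : ℝ) ≠ 0 := by exact_mod_cast (by omega : q ≠ 0)
  obtain ⟨t, ht'⟩ : ∃ t : U, t = (((1 : ℝ) / q : ℝ) : U) := ⟨_, rfl⟩
  have hqt : q • t = 0 := by
    rw [ht', ← AddCircle.coe_nsmul]
    have h1 : q • ((1 : ℝ) / q) = 1 := by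
      rw [nsmul_eq_mul]
      field_simp
    rw [h1]
    exact AddCircle.coe_period 1
  have hs : (Pi.single i t : T r) ∈ tor r q := by
    rw [hm, ← Pi.single_smul, hqt, Pi.single_zero]
  have h1 := ht _ hs (fun s => (mFourier X s : ℂ))
  simp only [fpr_mf_add] at h1
  rw [← sum_mul] at h1
  have h2 : (mFourier X (Pi.single i t : T r) : ℂ) ≠ 1 := by
    refine erg_ne ?_
    have h3 : ∑ k, X k • (Pi.single i t : T r) k = X i • t := by
      rw [sum_eq_single i]
      · rw [Pi.single_eq_same]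
      · intro k _ hk
        rw [Pi.single_eq_of_ne hk, smul_zero]
      · intro h
        exact absurd (mem_univ i) h
    rw [h3, ht', ← AddCircle.coe_zsmul]
    intro h4
    rw [AddCircle.coe_eq_zero_iff] at h4
    obtain ⟨n, hn⟩ := h4
    rw [zsmul_eq_mul, mul_one, zsmul_eq_mul, mul_one_div, eq_div_iff hq0] at hn
    have h5 : n * (q : ℤ) = X i := by exact_mod_cast hn
    have h6 : n ≠ 0 := by
      rintro rfl
      exact h0 (by rw [← h5, zero_mul])
    have h7 : (X i).natAbs = n.natAbs * q := by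
      rw [← h5, Int.natAbs_mul, Int.natAbs_natCast]
    have h8 : 1 ≤ n.natAbs := Int.natAbs_pos.2 h6
    have h9 : 1 * q ≤ n.natAbs * q := Nat.mul_le_mul_right q h8
    omega
  have h3 : (∑ s ∈ tor r q, (mFourier X s : ℂ)) * ((mFourier X (Pi.single i t : T r) : ℂ) - 1) =
      0 := by
    rw [mul_sub, mul_one, h1, sub_self]
  exact (mul_eq_zero.1 h3).resolve_right (sub_ne_zero.2 h2)

/-- the Fourier coefficients of the average -/
theorem qbz_fc {r q : ℕ} (D : T r → T r → U) {g : T r → ℂ} (hg : MemLp g 2 (mm r))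
    (X : Fin r → ℤ) :
    fc (pj q D 0 g) X = (∑ s ∈ tor r q, (mFourier X s : ℂ)) / (q : ℂ) ^ r * fc g X := by
  have h1 : ∀ θ, mFourier (-X) θ * pj q D 0 g θ =
      (∑ s ∈ tor r q, mFourier (-X) θ * g (θ + s)) / (q : ℂ) ^ r := by
    intro θ
    rw [pj, mul_div_assoc', mul_sum]
    congr 1
    exact sum_congr rfl fun s _ => by rw [fourier_zero, one_mul]
  have hi : ∀ s ∈ tor r q, Integrable (fun θ => mFourier (-X) θ * g (θ + s)) (mm r) := by
    intro s _
    have h2 : MemLp (fun x => g (x + s)) 2 (mm r) :=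
      hg.comp_measurePreserving (measurePreserving_add_right (mm r) s)
    have h3 : MemLp (fun θ => mFourier (-X) θ * g (θ + s)) 2 (mm r) := by
      refine h2.of_le ?_ (Eventually.of_forall fun x => ?_)
      · exact (mFourier (-X)).continuous.aestronglyMeasurable.mul h2.aestronglyMeasurable
      · rw [norm_mul, qbz_norm, one_mul]
    exact h3.integrable (by norm_num)
  show ∫ θ, mFourier (-X) θ * pj q D 0 g θ ∂(mm r) = _
  rw [integral_congr_ae (Eventually.of_forall h1), integral_div, integral_finsetSum _ hi]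
  have h4 : ∀ s ∈ tor r q, ∫ θ, mFourier (-X) θ * g (θ + s) ∂(mm r) =
      mFourier X s * fc g X := fun s _ => fpr_trans g s X
  rw [sum_congr rfl h4, ← sum_mul]
  ring

theorem st_QBZ (tr : ST_TOR) : ST_QBZ := by
  intro r g hg
  have hP := fpr_one hg
  have e0 : ‖∫ x, g x ∂(mm r)‖ ^ 2 =
      ∑' X : Fin r → ℤ, if X = 0 then ‖fc g 0‖ ^ 2 else 0 := by
    rw [tsum_ite_eq, erg_fc0]
  have e1 : ∀ᶠ q : ℕ in atTop, ∑' X : Fin r → ℤ,
      ‖(∑ s ∈ tor r q, (mFourier X s : ℂ)) / (q : ℂ) ^ r‖ ^ 2 * ‖fc g X‖ ^ 2 =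
      ms q (fun _ _ => 0) 0 g := by
    filter_upwards [eventually_ge_atTop 1] with q hq
    have h1 := fpr_one (memLp_pj (q := q) (D := fun _ _ => 0) 0 (fun s _ => measurable_const) hg)
    simp only [qbz_fc _ hg, norm_mul, mul_pow] at h1
    exact h1.tsum_eq
  rw [e0]
  refine Tendsto.congr' e1 ?_
  refine tendsto_tsum_of_dominated_convergence (bound := fun X => ‖fc g X‖ ^ 2) hP.summable ?_ ?_
  · intro X
    by_cases hX : X = 0
    · subst hX
      rw [if_pos rfl]
      refine tendsto_const_nhds.congr' ?_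
      filter_upwards [eventually_ge_atTop 1] with q hq
      have h1 : (∑ s ∈ tor r q, (mFourier (0 : Fin r → ℤ) s : ℂ)) / (q : ℂ) ^ r = 1 := by
        have h2 : ∀ s ∈ tor r q, (mFourier (0 : Fin r → ℤ) s : ℂ) = 1 := by
          intro s _
          rw [UnitAddTorus.mFourier_zero]
          rfl
        have h3 : (q : ℂ) ≠ 0 := by exact_mod_cast (by omega : q ≠ 0)
        rw [sum_congr rfl h2, sum_const, (tr r q hq).2.1, nsmul_eq_mul, mul_one, Nat.cast_pow,
          div_self (pow_ne_zero _ h3)]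
      rw [h1, norm_one, one_pow, one_mul]
    · rw [if_neg hX]
      obtain ⟨i, hi⟩ := Function.ne_iff.1 hX
      refine tendsto_const_nhds.congr' ?_
      filter_upwards [eventually_ge_atTop 1, eventually_gt_atTop (X i).natAbs] with q hq hq2
      rw [qbz_zero tr hq hi hq2, zero_div, norm_zero]
      simp
  · filter_upwards [eventually_ge_atTop 1] with q hq X
    have hq0 : (0 : ℝ) < (q : ℝ) ^ r := by
      have : (0 : ℝ) < q := by exact_mod_cast hq
      positivity
    have h1 : ‖(∑ s ∈ tor r q, (mFourier X s : ℂ)) / (q : ℂ) ^ r‖ ≤ 1 := by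
      rw [norm_div, norm_pow, Complex.norm_natCast, div_le_one hq0]
      refine (norm_sum_le _ _).trans ?_
      have h2 : ∀ s ∈ tor r q, ‖(mFourier X s : ℂ)‖ = 1 := fun s _ => qbz_norm X s
      rw [sum_congr rfl h2, sum_const, (tr r q hq).2.1, nsmul_eq_mul, mul_one]
      push_cast
      exact le_rfl
    rw [norm_mul, norm_pow, norm_pow, norm_norm, norm_norm]
    have h2 : ‖(∑ s ∈ tor r q, (mFourier X s : ℂ)) / (q : ℂ) ^ r‖ ^ 2 ≤ 1 :=
      pow_le_one₀ (norm_nonneg _) h1
    nlinarith [sq_nonneg ‖fc g X‖]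

end Pool.Agent.Helper40.JZ
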